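import Pool.Agent.helper94.SCT.Spec

set_option autoImplicit false

namespace Pool.Agent.SCT

theorem BMP : BMP_stmt := by
  intro a b κ hκ hab
  let f : ContDiffBump ((a + b) / 2 : ℝ) := ⟨(b - a) / 2 - κ, (b - a) / 2, by linarith, by linarith⟩
  refine ⟨fun u => f u, ⟨f.contDiff, f.hasCompactSupport⟩, fun u => ⟨f.nonneg, f.le_one⟩, ?_, ?_⟩
  · intro u hu
    have h1 : dist u ((a + b) / 2) < (b - a) / 2 := by
      by_contra h
      push Not at h
      exact hu (f.zero_of_le_dist h)
    rw [Real.dist_eq, abs_lt] at h1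
    constructor <;> linarith [h1.1, h1.2]
  · intro u h1 h2
    apply f.one_of_mem_closedBall
    rw [Metric.mem_closedBall, Real.dist_eq, abs_le]
    show -((b - a) / 2 - κ) ≤ u - (a + b) / 2 ∧ u - (a + b) / 2 ≤ (b - a) / 2 - κ
    constructor <;> linarith

end Pool.Agent.SCT
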