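import Pool.Agent.helper94.SCT.Spec
import Pool.Agent.helper93.ED.WG

set_option autoImplicit false

namespace Pool.Agent.SCT

open Finset ArithmeticFunction MeasureTheory
open Pool.Agent.CH (nit eU)
open Pool.Agent.helper78.ED (wg SS)

private theorem HMI_wg0 (M : ℝ) : wg M 0 = 0 := by simp [wg]

private theorem HMI_wgn (M : ℝ) (n : ℕ) : 0 ≤ wg M n := by
  unfold wg
  split_ifs
  · exact le_rfl
  · exact (Real.exp_pos _).le

private theorem HMI_wgp (M : ℝ) {n : ℕ} (hn : n ≠ 0) : 0 < wg M n := by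
  unfold wg
  rw [if_neg hn]
  exact Real.exp_pos _

private theorem HMI_SS (M τ : ℝ) : SS M 0 τ = ∑' n : ℕ, (wg M n : ℂ) * nu τ n := by
  unfold SS
  refine tsum_congr fun n => ?_
  rcases Nat.eq_zero_or_pos n with h | h
  · rw [h, HMI_wg0]
    simp
  · rw [nu_cpow τ h.ne']
    congr 2
    simp

private theorem HMI_sub (s t : ℝ) (n : ℕ) : nu (s - t) n = nu s n * (starRingEnd ℂ) (nu t n) := by
  rw [sub_eq_add_neg, nu_add, nu_neg]

private theorem HMI_sym (M τ : ℝ) : ‖SS M 0 (-τ)‖ = ‖SS M 0 τ‖ := by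
  rw [HMI_SS, HMI_SS]
  have h : ∑' n : ℕ, (wg M n : ℂ) * nu (-τ) n = (starRingEnd ℂ) (∑' n : ℕ, (wg M n : ℂ) * nu τ n) := by
    rw [Complex.conj_tsum]
    refine tsum_congr fun n => ?_
    rw [nu_neg, map_mul, Complex.conj_ofReal]
  rw [h, RCLike.norm_conj]

private theorem HMI_cont (M : ℝ) (hM : 1 ≤ M) : Continuous fun τ : ℝ => SS M 0 τ := by
  obtain ⟨C, hC, hw⟩ := Pool.Agent.helper78.ED.wg_sum
  have h : (fun τ : ℝ => SS M 0 τ) = fun τ : ℝ => ∑' n : ℕ, (wg M n : ℂ) * nu τ n := by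
    funext τ
    exact HMI_SS M τ
  rw [h]
  refine continuous_tsum (fun n => continuous_const.mul (nu_cont n)) (hw M hM).1 fun n τ => ?_
  rw [norm_mul, nu_norm, mul_one, Complex.norm_real, Real.norm_of_nonneg (HMI_wgn M n)]

theorem HMI : HMI_stmt := by
  intro E u v hE hEuv S hS c M R hM hR hER
  obtain ⟨C₀, hC₀, hw⟩ := Pool.Agent.helper78.ED.wg_sum
  have hws := (hw M hM).1
  set μ : Measure ℝ := volume.restrict E with hμ
  have hfin : IsFiniteMeasure μ := by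
    constructor
    rw [hμ, Measure.restrict_apply_univ]
    exact lt_of_le_of_lt (measure_mono hEuv) (by rw [Real.volume_Icc]; exact ENNReal.ofReal_lt_top)
  set A : ℝ → ℂ := fun t => ∑ n ∈ S, c n * nu t n with hA
  have hAc : Continuous A := by
    refine continuous_finset_sum _ fun n _ => continuous_const.mul (nu_cont n)
  set B : ℝ := ∑ n ∈ S, ‖c n‖ with hB
  have hB0 : 0 ≤ B := Finset.sum_nonneg fun n _ => norm_nonneg _
  have hAB : ∀ t, ‖A t‖ ≤ B := by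
    intro t
    refine (norm_sum_le _ _).trans (Finset.sum_le_sum fun n _ => ?_)
    rw [norm_mul, nu_norm, mul_one]
  set I : ℝ := ∫ t, ‖A t‖ ^ 2 ∂μ with hI
  have hI0 : 0 ≤ I := integral_nonneg fun t => by positivity
  have bdd : ∀ (f : ℝ → ℂ), Continuous f → (∃ K, ∀ t, ‖f t‖ ≤ K) → Integrable f μ := by
    rintro f hf ⟨K, hK⟩
    exact Integrable.of_bound hf.aestronglyMeasurable K (Filter.Eventually.of_forall hK)
  have bddR : ∀ (f : ℝ → ℝ), Continuous f → (∃ K, ∀ t, ‖f t‖ ≤ K) → Integrable f μ := by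
    rintro f hf ⟨K, hK⟩
    exact Integrable.of_bound hf.aestronglyMeasurable K (Filter.Eventually.of_forall hK)
  set G : ℕ → ℂ := fun n => ∫ t, nu t n * (starRingEnd ℂ) (A t) ∂μ with hG
  have hconjA : Continuous fun t => (starRingEnd ℂ) (A t) := Complex.continuous_conj.comp hAc
  have hint1 : ∀ n, Integrable (fun t => nu t n * (starRingEnd ℂ) (A t)) μ := by
    intro n
    refine bdd _ ((nu_cont n).mul hconjA) ⟨B, fun t => ?_⟩
    rw [norm_mul, nu_norm, one_mul, RCLike.norm_conj]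
    exact hAB t
  -- the first identity
  have hIG : (I : ℂ) = ∑ n ∈ S, c n * G n := by
    have h1 : ∑ n ∈ S, c n * G n = ∫ t, ∑ n ∈ S, c n * (nu t n * (starRingEnd ℂ) (A t)) ∂μ := by
      rw [integral_finset_sum _ fun n _ => (hint1 n).const_mul (c n)]
      refine Finset.sum_congr rfl fun n _ => ?_
      rw [integral_const_mul]
    rw [h1, hI, ← integral_complex_ofReal]
    refine integral_congr_ae (Filter.Eventually.of_forall fun t => ?_)
    show ((‖A t‖ ^ 2 : ℝ) : ℂ) = ∑ n ∈ S, c n * (nu t n * (starRingEnd ℂ) (A t))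
    have h2 : ∑ n ∈ S, c n * (nu t n * (starRingEnd ℂ) (A t)) = A t * (starRingEnd ℂ) (A t) := by
      rw [hA, Finset.sum_mul]
      refine Finset.sum_congr rfl fun n _ => by ring
    rw [h2, Complex.mul_conj, Complex.normSq_eq_norm_sq]
  -- Cauchy-Schwarz
  have hCS : I ^ 2 ≤ (∑ n ∈ S, ‖c n‖ ^ 2 / wg M n) * ∑ n ∈ S, wg M n * ‖G n‖ ^ 2 := by
    have h1 : I ≤ ∑ n ∈ S, ‖c n‖ * ‖G n‖ := by
      have h2 : I = ‖(I : ℂ)‖ := by rw [Complex.norm_real, Real.norm_of_nonneg hI0]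
      rw [h2, hIG]
      refine (norm_sum_le _ _).trans (Finset.sum_le_sum fun n _ => ?_)
      rw [norm_mul]
    refine (pow_le_pow_left₀ hI0 h1 2).trans ?_
    refine Finset.sum_sq_le_sum_mul_sum_of_sq_eq_mul S (fun n hn => ?_) (fun n hn => ?_) (fun n hn => ?_)
    · exact div_nonneg (by positivity) (HMI_wgn M n)
    · exact mul_nonneg (HMI_wgn M n) (by positivity)
    · have hn0 : n ≠ 0 := fun h => hS (h ▸ hn)
      have := (HMI_wgp M hn0).ne'
      field_simp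
  -- the double integral
  set H : ℝ × ℝ → ℂ := fun p => (starRingEnd ℂ) (A p.1) * A p.2 with hH
  have hHc : Continuous H := (hconjA.comp continuous_fst).mul (hAc.comp continuous_snd)
  have hHB : ∀ p, ‖H p‖ ≤ B * B := by
    intro p
    rw [hH]
    simp only [norm_mul, RCLike.norm_conj]
    exact mul_le_mul (hAB _) (hAB _) (norm_nonneg _) hB0
  have hGn : ∀ n, ((‖G n‖ ^ 2 : ℝ) : ℂ) = ∫ p, nu (p.1 - p.2) n * H p ∂(μ.prod μ) := by
    intro n
    have h1 : ((‖G n‖ ^ 2 : ℝ) : ℂ) = G n * (starRingEnd ℂ) (G n) := by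
      rw [Complex.mul_conj, Complex.normSq_eq_norm_sq]
    rw [h1]
    have h2 : (starRingEnd ℂ) (G n) = ∫ t, (starRingEnd ℂ) (nu t n) * A t ∂μ := by
      rw [hG]
      simp only
      rw [← integral_conj]
      refine integral_congr_ae (Filter.Eventually.of_forall fun t => ?_)
      simp
    rw [h2, hG]
    simp only
    rw [← integral_prod_mul]
    refine integral_congr_ae (Filter.Eventually.of_forall fun p => ?_)
    show nu p.1 n * (starRingEnd ℂ) (A p.1) * ((starRingEnd ℂ) (nu p.2 n) * A p.2) = nu (p.1 - p.2) n * H p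
    rw [HMI_sub, hH]
    simp only
    ring
  have hint2 : ∀ n, Integrable (fun p : ℝ × ℝ => (wg M n : ℂ) * (nu (p.1 - p.2) n * H p)) (μ.prod μ) := by
    intro n
    refine Integrable.of_bound ?_ (wg M n * (B * B)) (Filter.Eventually.of_forall fun p => ?_)
    · exact (continuous_const.mul (((nu_cont n).comp (continuous_fst.sub continuous_snd)).mul
        hHc)).aestronglyMeasurable
    · rw [norm_mul, norm_mul, nu_norm, one_mul, Complex.norm_real, Real.norm_of_nonneg (HMI_wgn M n)]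
      exact mul_le_mul_of_nonneg_left (hHB p) (HMI_wgn M n)
  have hnormint : ∀ n, ∫ p, ‖(wg M n : ℂ) * (nu (p.1 - p.2) n * H p)‖ ∂(μ.prod μ) ≤
      wg M n * ((B * B) * (μ.prod μ).real Set.univ) := by
    intro n
    have h1 : ∀ p : ℝ × ℝ, ‖(wg M n : ℂ) * (nu (p.1 - p.2) n * H p)‖ ≤ wg M n * (B * B) := by
      intro p
      rw [norm_mul, norm_mul, nu_norm, one_mul, Complex.norm_real, Real.norm_of_nonneg (HMI_wgn M n)]
      exact mul_le_mul_of_nonneg_left (hHB p) (HMI_wgn M n)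
    refine (integral_mono (hint2 n).norm (integrable_const _) h1).trans ?_
    rw [integral_const, smul_eq_mul]
    apply le_of_eq
    ring
  have hsumint : Summable fun n => ∫ p, ‖(wg M n : ℂ) * (nu (p.1 - p.2) n * H p)‖ ∂(μ.prod μ) := by
    refine Summable.of_nonneg_of_le (fun n => integral_nonneg fun p => norm_nonneg _) hnormint ?_
    exact hws.mul_right _
  have hhas := hasSum_integral_of_summable_integral_norm hint2 hsumint
  have htsum : ∀ p : ℝ × ℝ, ∑' n, (wg M n : ℂ) * (nu (p.1 - p.2) n * H p) = SS M 0 (p.1 - p.2) * H p := by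
    intro p
    rw [HMI_SS, ← tsum_mul_right]
    refine tsum_congr fun n => by ring
  have hhas2 : HasSum (fun n => wg M n * ‖G n‖ ^ 2)
      (∫ p, SS M 0 (p.1 - p.2) * H p ∂(μ.prod μ)).re := by
    have h1 : HasSum (fun n => (((wg M n * ‖G n‖ ^ 2 : ℝ)) : ℂ)) (∫ p, SS M 0 (p.1 - p.2) * H p ∂(μ.prod μ)) := by
      have h2 : (fun p : ℝ × ℝ => ∑' n, (wg M n : ℂ) * (nu (p.1 - p.2) n * H p)) =
          fun p => SS M 0 (p.1 - p.2) * H p := funext htsum
      rw [h2] at hhas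
      have h3 : (fun n => ∫ p, (wg M n : ℂ) * (nu (p.1 - p.2) n * H p) ∂(μ.prod μ)) =
          fun n => (((wg M n * ‖G n‖ ^ 2 : ℝ)) : ℂ) := by
        funext n
        rw [integral_const_mul, ← hGn n]
        push_cast
        ring
      rw [h3] at hhas
      exact hhas
    exact Complex.hasSum_re h1
  have hKc := HMI_cont M hM
  obtain ⟨C₁, hC₁, hSSb⟩ := Pool.Agent.helper78.ED.SS_triv
  have hKb : ∀ τ, ‖SS M 0 τ‖ ≤ C₁ * M := fun τ => hSSb M 0 τ hM le_rfl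
  have hKc2 : Continuous fun p : ℝ × ℝ => ‖SS M 0 (p.1 - p.2)‖ :=
    (hKc.comp (continuous_fst.sub continuous_snd)).norm
  have hi1 : Integrable (fun p : ℝ × ℝ => ‖SS M 0 (p.1 - p.2)‖ * ‖A p.1‖ ^ 2) (μ.prod μ) := by
    refine Integrable.of_bound ?_ (C₁ * M * B ^ 2) (Filter.Eventually.of_forall fun p => ?_)
    · exact (hKc2.mul ((hAc.comp continuous_fst).norm.pow 2)).aestronglyMeasurable
    · rw [Real.norm_of_nonneg (by positivity)]
      exact mul_le_mul (hKb _) (pow_le_pow_left₀ (norm_nonneg _) (hAB _) 2) (by positivity) (by positivity)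
  have hi2 : Integrable (fun p : ℝ × ℝ => ‖SS M 0 (p.1 - p.2)‖ * ‖A p.2‖ ^ 2) (μ.prod μ) := by
    refine Integrable.of_bound ?_ (C₁ * M * B ^ 2) (Filter.Eventually.of_forall fun p => ?_)
    · exact (hKc2.mul ((hAc.comp continuous_snd).norm.pow 2)).aestronglyMeasurable
    · rw [Real.norm_of_nonneg (by positivity)]
      exact mul_le_mul (hKb _) (pow_le_pow_left₀ (norm_nonneg _) (hAB _) 2) (by positivity) (by positivity)
  have hA2 : Integrable (fun t => ‖A t‖ ^ 2) μ := by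
    refine bddR _ (hAc.norm.pow 2) ⟨B ^ 2, fun t => ?_⟩
    rw [Real.norm_of_nonneg (by positivity)]
    exact pow_le_pow_left₀ (norm_nonneg _) (hAB _) 2
  have hb1 : ∫ p, ‖SS M 0 (p.1 - p.2)‖ * ‖A p.1‖ ^ 2 ∂(μ.prod μ) ≤ R * I := by
    rw [integral_prod _ hi1]
    have h1 : ∀ t, ∫ t', ‖SS M 0 (t - t')‖ * ‖A t‖ ^ 2 ∂μ = (∫ t', ‖SS M 0 (t - t')‖ ∂μ) * ‖A t‖ ^ 2 := by
      intro t
      rw [integral_mul_const]
    simp only [h1]
    rw [hI, ← integral_const_mul]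
    refine integral_mono_ae ?_ (hA2.const_mul R) ?_
    · have := hi1.integral_prod_left
      simpa only [h1] using this
    · have hae : ∀ᵐ t ∂μ, t ∈ E := ae_restrict_mem hE
      filter_upwards [hae] with t ht
      exact mul_le_mul_of_nonneg_right (hER t ht) (by positivity)
  have hb2 : ∫ p, ‖SS M 0 (p.1 - p.2)‖ * ‖A p.2‖ ^ 2 ∂(μ.prod μ) ≤ R * I := by
    have h1 : ∫ p, ‖SS M 0 (p.1 - p.2)‖ * ‖A p.2‖ ^ 2 ∂(μ.prod μ) =
        ∫ p, ‖SS M 0 (p.1 - p.2)‖ * ‖A p.1‖ ^ 2 ∂(μ.prod μ) := by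
      have h2 := integral_prod_swap (μ := μ) (ν := μ) (fun p : ℝ × ℝ => ‖SS M 0 (p.1 - p.2)‖ * ‖A p.1‖ ^ 2)
      rw [← h2]
      refine integral_congr_ae (Filter.Eventually.of_forall fun p => ?_)
      show ‖SS M 0 (p.1 - p.2)‖ * ‖A p.2‖ ^ 2 = ‖SS M 0 (p.swap.1 - p.swap.2)‖ * ‖A p.swap.1‖ ^ 2
      rw [Prod.fst_swap, Prod.snd_swap, ← neg_sub p.1 p.2, HMI_sym M _]
    rw [h1]
    exact hb1
  have hbound : (∫ p, SS M 0 (p.1 - p.2) * H p ∂(μ.prod μ)).re ≤ R * I := by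
    refine (Complex.re_le_norm _).trans ((norm_integral_le_integral_norm _).trans ?_)
    have h1 : ∀ p : ℝ × ℝ, ‖SS M 0 (p.1 - p.2) * H p‖ ≤
        (1 / 2) * (‖SS M 0 (p.1 - p.2)‖ * ‖A p.1‖ ^ 2) + (1 / 2) * (‖SS M 0 (p.1 - p.2)‖ * ‖A p.2‖ ^ 2) := by
      intro p
      rw [norm_mul, hH]
      simp only [norm_mul, RCLike.norm_conj]
      have h2 : ‖A p.1‖ * ‖A p.2‖ ≤ 1 / 2 * ‖A p.1‖ ^ 2 + 1 / 2 * ‖A p.2‖ ^ 2 := by
        nlinarith [sq_nonneg (‖A p.1‖ - ‖A p.2‖)]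
      calc ‖SS M 0 (p.1 - p.2)‖ * (‖A p.1‖ * ‖A p.2‖) ≤
          ‖SS M 0 (p.1 - p.2)‖ * (1 / 2 * ‖A p.1‖ ^ 2 + 1 / 2 * ‖A p.2‖ ^ 2) :=
            mul_le_mul_of_nonneg_left h2 (norm_nonneg _)
        _ = _ := by ring
    have h3 : Integrable (fun p : ℝ × ℝ => ‖SS M 0 (p.1 - p.2) * H p‖) (μ.prod μ) := by
      refine Integrable.norm ?_
      refine Integrable.of_bound ?_ (C₁ * M * (B * B)) (Filter.Eventually.of_forall fun p => ?_)
      · exact ((hKc.comp (continuous_fst.sub continuous_snd)).mul hHc).aestronglyMeasurable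
      · rw [norm_mul]
        exact mul_le_mul (hKb _) (hHB _) (norm_nonneg _) (by positivity)
    have hadd : Integrable (fun p : ℝ × ℝ => (1 / 2) * (‖SS M 0 (p.1 - p.2)‖ * ‖A p.1‖ ^ 2) +
        (1 / 2) * (‖SS M 0 (p.1 - p.2)‖ * ‖A p.2‖ ^ 2)) (μ.prod μ) :=
      (hi1.const_mul _).add (hi2.const_mul _)
    refine (integral_mono h3 hadd h1).trans ?_
    have h4 : ∫ p, ((1 / 2) * (‖SS M 0 (p.1 - p.2)‖ * ‖A p.1‖ ^ 2) +
        (1 / 2) * (‖SS M 0 (p.1 - p.2)‖ * ‖A p.2‖ ^ 2)) ∂(μ.prod μ) =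
        (1 / 2) * ∫ p, ‖SS M 0 (p.1 - p.2)‖ * ‖A p.1‖ ^ 2 ∂(μ.prod μ) +
        (1 / 2) * ∫ p, ‖SS M 0 (p.1 - p.2)‖ * ‖A p.2‖ ^ 2 ∂(μ.prod μ) := by
      rw [integral_add (hi1.const_mul _) (hi2.const_mul _), integral_const_mul, integral_const_mul]
    rw [h4]
    linarith
  have hD : ∑ n ∈ S, wg M n * ‖G n‖ ^ 2 ≤ R * I := by
    refine (sum_le_hasSum S (fun n _ => mul_nonneg (HMI_wgn M n) (by positivity)) hhas2).trans hbound
  have hW0 : 0 ≤ ∑ n ∈ S, ‖c n‖ ^ 2 / wg M n :=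
    Finset.sum_nonneg fun n _ => div_nonneg (by positivity) (HMI_wgn M n)
  show I ≤ (∑ n ∈ S, ‖c n‖ ^ 2 / wg M n) * R
  rcases hI0.eq_or_lt with h | h
  · rw [← h]
    exact mul_nonneg hW0 hR
  · have h1 : I ^ 2 ≤ (∑ n ∈ S, ‖c n‖ ^ 2 / wg M n) * (R * I) :=
      hCS.trans (mul_le_mul_of_nonneg_left hD hW0)
    have h2 : I * I ≤ ((∑ n ∈ S, ‖c n‖ ^ 2 / wg M n) * R) * I := by
      calc I * I = I ^ 2 := by ring
        _ ≤ _ := h1
        _ = _ := by ring
    exact le_of_mul_le_mul_right h2 h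

end Pool.Agent.SCT
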