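import Pool.Agent.helper94.SCT.Spec

set_option autoImplicit false

namespace Pool.Agent.SCT

open Finset ArithmeticFunction MeasureTheory

theorem MES (hND : ND_stmt) : MES_stmt := by
  intro ε hε
  obtain ⟨C, hC, hN⟩ := hND ε hε
  refine ⟨2 * C * 2 ^ (9 / 8 + ε), by positivity, fun T H a hH hHT ha0 ha => ?_⟩
  obtain ⟨hfin, hcard⟩ := hN (2 * T) (1 - a) (by linarith) (by linarith) (by linarith)
  set Z : Set ℂ := {ρ : ℂ | riemannZeta ρ = 0 ∧ 1 - a ≤ ρ.re ∧ 0 < ρ.im ∧ ρ.im ≤ 2 * T} with hZ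
  have hset : Bad a H ∩ Set.Icc (2 * H) T = ⋃ ρ ∈ Z, (Set.Icc (ρ.im - H) (ρ.im + H) ∩ Set.Icc (2 * H) T) := by
    ext t
    simp only [Set.mem_inter_iff, Set.mem_iUnion, Set.mem_Icc, exists_prop]
    constructor
    · rintro ⟨⟨ρ, h1, h2, h3⟩, h4, h5⟩
      rw [abs_le] at h3
      exact ⟨ρ, ⟨h1, h2, by linarith, by linarith⟩, ⟨by linarith, by linarith⟩, h4, h5⟩
    · rintro ⟨ρ, ⟨h1, h2, _, _⟩, ⟨h5, h6⟩, h7, h8⟩
      exact ⟨⟨ρ, h1, h2, by rw [abs_le]; constructor <;> linarith⟩, h7, h8⟩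
  rw [hset]
  constructor
  · exact hfin.measurableSet_biUnion fun ρ _ => measurableSet_Icc.inter measurableSet_Icc
  · have h1 : (⋃ ρ ∈ Z, (Set.Icc (ρ.im - H) (ρ.im + H) ∩ Set.Icc (2 * H) T)) =
        ⋃ ρ ∈ hfin.toFinset, (Set.Icc (ρ.im - H) (ρ.im + H) ∩ Set.Icc (2 * H) T) := by
      ext t
      simp
    rw [h1]
    refine (measure_biUnion_finset_le _ _).trans ?_
    have h2 : ∀ ρ ∈ hfin.toFinset, volume (Set.Icc (ρ.im - H) (ρ.im + H) ∩ Set.Icc (2 * H) T) ≤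
        ENNReal.ofReal (2 * H) := by
      intro ρ _
      refine (measure_mono Set.inter_subset_left).trans ?_
      rw [Real.volume_Icc]
      apply ENNReal.ofReal_le_ofReal
      linarith
    refine (Finset.sum_le_sum h2).trans ?_
    rw [Finset.sum_const, nsmul_eq_mul, ← ENNReal.ofReal_natCast, ← ENNReal.ofReal_mul (Nat.cast_nonneg _)]
    apply ENNReal.ofReal_le_ofReal
    have h3 : (hfin.toFinset.card : ℝ) = (Z.ncard : ℝ) := by
      rw [Set.ncard_eq_toFinset_card Z hfin]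
    rw [h3]
    have hT : 1 ≤ T := hH.trans hHT
    have h4 : (2 * T) ^ (9 / 4 * (1 - (1 - a)) + ε) ≤ 2 ^ (9 / 8 + ε) * T ^ (9 / 4 * a + ε) := by
      rw [Real.mul_rpow (by norm_num) (by linarith)]
      have h5 : 9 / 4 * (1 - (1 - a)) + ε = 9 / 4 * a + ε := by ring
      rw [h5]
      have h6 : (2 : ℝ) ^ (9 / 4 * a + ε) ≤ 2 ^ (9 / 8 + ε) :=
        Real.rpow_le_rpow_of_exponent_le (by norm_num) (by linarith)
      exact mul_le_mul_of_nonneg_right h6 (by positivity)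
    have h7 : (Z.ncard : ℝ) ≤ C * (2 ^ (9 / 8 + ε) * T ^ (9 / 4 * a + ε)) :=
      hcard.trans (mul_le_mul_of_nonneg_left h4 hC.le)
    calc (Z.ncard : ℝ) * (2 * H) ≤ C * (2 ^ (9 / 8 + ε) * T ^ (9 / 4 * a + ε)) * (2 * H) :=
          mul_le_mul_of_nonneg_right h7 (by linarith)
      _ = 2 * C * 2 ^ (9 / 8 + ε) * H * T ^ (9 / 4 * a + ε) := by ring

end Pool.Agent.SCT
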